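import Pool.Agent.H334R2.CM.Defs

/-!
# Kloosterman sums with different characters are different functions
-/

set_option autoImplicit false
open scoped Matrix MatrixGroups
universe u
namespace CM

namespace FOUR

section
variable {q : ℕ} [Fact q.Prime] {k : Type u} [Field k] [CharP k 2] (ψ : AddChar (ZMod q) k)

theorem q_one (hq : q % 4 = 3) : (q : k) = 1 := by
  have h : q = 2 * (q / 2) + 1 := by omega
  rw [h]
  push_cast
  rw [CharTwo.two_eq_zero, zero_mul, zero_add]

/-- a function whose Fourier transform vanishes off zero is constant -/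
theorem fourier (hq : q % 4 = 3) (hψ : ψ.IsPrimitive) (F : ZMod q → k)
    (h : ∀ a : (ZMod q)ˣ, ∑ x, F x * ψ (x * ((a⁻¹ : (ZMod q)ˣ) : ZMod q)) = 0) (x₀ : ZMod q) :
    F x₀ = ∑ x, F x := by
  classical
  have h1 : ∑ b : ZMod q, ψ (-(x₀ * b)) * ∑ x, F x * ψ (x * b) = ∑ x, F x := by
    rw [Finset.sum_eq_single (0 : ZMod q)]
    · simp
    · intro b _ hb
      have h2 := h (Units.mk0 b hb)⁻¹
      rw [inv_inv, Units.val_mk0] at h2
      rw [h2, mul_zero]
    · intro hh
      exact absurd (Finset.mem_univ _) hh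
  have h2 : ∑ b : ZMod q, ψ (-(x₀ * b)) * ∑ x, F x * ψ (x * b) =
      ∑ x, F x * ∑ b : ZMod q, ψ (b * (x - x₀)) := by
    simp_rw [Finset.mul_sum]
    rw [Finset.sum_comm]
    refine Finset.sum_congr rfl fun x _ => Finset.sum_congr rfl fun b _ => ?_
    have : b * (x - x₀) = -(x₀ * b) + x * b := by ring
    rw [this, AddChar.map_add_eq_mul]
    ring
  rw [h1] at h2
  rw [h2]
  rw [Finset.sum_eq_single x₀]
  · rw [AddChar.sum_mulShift _ hψ, if_pos (sub_self x₀), ZMod.card, q_one hq, mul_one]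
  · intro x _ hx
    rw [AddChar.sum_mulShift _ hψ, if_neg (sub_ne_zero.mpr hx), Nat.cast_zero, mul_zero]
  · intro hh
    exact absurd (Finset.mem_univ _) hh

open Classical in
/-- push forward -/
noncomputable def pf {Y : Type} [Fintype Y] (τ : Y → ZMod q) (c : Y → k) (x : ZMod q) : k :=
  ∑ y, if τ y = x then c y else 0

theorem sum_pf {Y : Type} [Fintype Y] (τ : Y → ZMod q) (c : Y → k) (b : ZMod q) :
    ∑ y, c y * ψ (τ y * b) = ∑ x, pf τ c x * ψ (x * b) := by
  classical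
  unfold pf
  simp_rw [Finset.sum_mul]
  rw [Finset.sum_comm]
  refine Finset.sum_congr rfl fun y _ => ?_
  rw [Finset.sum_eq_single (τ y)]
  · rw [if_pos rfl]
  · intro x _ hx
    rw [if_neg (fun h => hx h.symm), zero_mul]
  · intro hh
    exact absurd (Finset.mem_univ _) hh

theorem pf_eq (hq : q % 4 = 3) (hψ : ψ.IsPrimitive) {Y Y' : Type} [Fintype Y] [Fintype Y']
    (τ : Y → ZMod q) (c : Y → k) (τ' : Y' → ZMod q) (c' : Y' → k)
    (h : ∀ a : (ZMod q)ˣ, ∑ y, c y * ψ (τ y * ((a⁻¹ : (ZMod q)ˣ) : ZMod q)) =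
      ∑ y, c' y * ψ (τ' y * ((a⁻¹ : (ZMod q)ˣ) : ZMod q)))
    (x₀ : ZMod q) (h0 : pf τ c x₀ = pf τ' c' x₀) (x : ZMod q) : pf τ c x = pf τ' c' x := by
  have h1 := fourier ψ hq hψ (fun x => pf τ c x - pf τ' c' x) (by
    intro a
    have h2 := h a
    rw [sum_pf ψ τ c, sum_pf ψ τ' c'] at h2
    simp_rw [sub_mul]
    rw [Finset.sum_sub_distrib, h2, sub_self])
  have h2 := h1 x₀
  have h3 := h1 x
  rw [h0, sub_self] at h2
  rw [← h2] at h3
  exact sub_eq_zero.mp h3

/-- a finite commutative group of units of `E` with traces in `ZMod q` -/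
structure Tr {q : ℕ} [Fact q.Prime] (E : Type) [Field E] [Algebra (ZMod q) E] {Y : Type} [CommGroup Y]
    (ι : Y →* Eˣ) (τ : Y → ZMod q) : Prop where
  inj : Function.Injective ι
  tr : ∀ y, algebraMap (ZMod q) E (τ y) = (ι y : E) + (((ι y)⁻¹ : Eˣ) : E)

theorem unit_add_inv {E : Type*} [Field E] {u v : Eˣ}
    (h : (u : E) + ((u⁻¹ : Eˣ) : E) = (v : E) + ((v⁻¹ : Eˣ) : E)) : u = v ∨ u = v⁻¹ := by
  have hu := u.ne_zero
  have hv := v.ne_zero
  rw [Units.val_inv_eq_inv_val, Units.val_inv_eq_inv_val] at h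
  have h1 : ((u : E) - v) * ((u : E) * v - 1) = 0 := by
    field_simp at h
    linear_combination h
  rcases mul_eq_zero.mp h1 with h2 | h2
  · left
    exact Units.ext (sub_eq_zero.mp h2)
  · right
    apply eq_inv_of_mul_eq_one_left
    apply Units.ext
    rw [Units.val_mul, Units.val_one]
    exact sub_eq_zero.mp h2

variable {E : Type} [Field E] [Algebra (ZMod q) E] {Y : Type} [CommGroup Y]
    {ι : Y →* Eˣ} {τ : Y → ZMod q}

theorem Tr.eq_iff (T : Tr E ι τ) {y y' : Y} : τ y' = τ y ↔ y' = y ∨ y' = y⁻¹ := by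
  constructor
  · intro h
    have h1 : (ι y' : E) + (((ι y')⁻¹ : Eˣ) : E) = (ι y : E) + (((ι y)⁻¹ : Eˣ) : E) := by
      rw [← T.tr, ← T.tr, h]
    rcases unit_add_inv h1 with h2 | h2
    · left; exact T.inj h2
    · right; rw [← map_inv] at h2; exact T.inj h2
  · rintro (rfl | rfl)
    · rfl
    · apply (algebraMap (ZMod q) E).injective
      rw [T.tr, T.tr, map_inv, inv_inv, add_comm]

theorem Tr.one (T : Tr E ι τ) : τ 1 = 2 := by
  apply (algebraMap (ZMod q) E).injective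
  rw [T.tr, map_one, inv_one, Units.val_one, map_ofNat]
  norm_num

theorem Tr.two (T : Tr E ι τ) {y : Y} : τ y = 2 ↔ y = 1 := by
  rw [← T.one, T.eq_iff]
  simp

theorem Tr.pf_two [Fintype Y] (T : Tr E ι τ) (c : Y → k) : pf τ c 2 = c 1 := by
  classical
  unfold pf
  rw [Finset.sum_eq_single 1]
  · rw [if_pos T.one]
  · intro y _ hy
    rw [if_neg (fun h => hy (T.two.mp h))]
  · intro hh
    exact absurd (Finset.mem_univ _) hh

theorem Tr.pf_val [Fintype Y] (T : Tr E ι τ) (c : Y → k) {y : Y} (hy : y ≠ y⁻¹) :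
    pf τ c (τ y) = c y + c y⁻¹ := by
  classical
  unfold pf
  have h1 : ∀ z, (if τ z = τ y then c z else 0) = if z ∈ ({y, y⁻¹} : Finset Y) then c z else 0 := by
    intro z
    simp only [T.eq_iff, Finset.mem_insert, Finset.mem_singleton]
  simp_rw [h1]
  rw [Finset.sum_ite_mem, Finset.univ_inter, Finset.sum_pair hy]

theorem Tr.pf_none [Fintype Y] (T : Tr E ι τ) (c : Y → k) {x : ZMod q} (hx : ∀ y, τ y ≠ x) :
    pf τ c x = 0 := by
  classical
  unfold pf
  exact Finset.sum_eq_zero fun y _ => if_neg (hx y)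

theorem unit_sq {u : kˣ} (h : u ^ 2 = 1) : u = 1 := by
  have h1 : (u : k) ^ 2 = 1 := by
    rw [← Units.val_pow_eq_pow_val, h, Units.val_one]
  have h2 : ((u : k) - 1) ^ 2 = 0 := by
    have := CharTwo.two_eq_zero (R := k)
    linear_combination h1 + (1 - (u : k)) * this
  exact Units.ext (sub_eq_zero.mp (pow_eq_zero_iff (two_ne_zero) |>.mp h2))

theorem inv_sq {χ : Y →* kˣ} {y : Y} (hy : y = y⁻¹) : χ y = 1 := by
  apply unit_sq
  rw [← map_pow]
  have : y ^ 2 = 1 := by
    rw [sq]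
    nth_rewrite 2 [hy]
    exact mul_inv_cancel y
  rw [this, map_one]

/-- two characters of a cyclic group with the same sums are equal up to inversion -/
theorem char_eq (hq : q % 4 = 3) (hψ : ψ.IsPrimitive) [Fintype Y] [IsCyclic Y] (T : Tr E ι τ)
    (χ χ' : Y →* kˣ)
    (h : ∀ a : (ZMod q)ˣ, ∑ y, (χ y : k) * ψ (τ y * ((a⁻¹ : (ZMod q)ˣ) : ZMod q)) =
      ∑ y, (χ' y : k) * ψ (τ y * ((a⁻¹ : (ZMod q)ˣ) : ZMod q))) : χ' = χ ∨ χ' = χ⁻¹ := by
  obtain ⟨g, hg⟩ := IsCyclic.exists_generator (α := Y)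
  have h1 := pf_eq ψ hq hψ τ (fun y => (χ y : k)) τ (fun y => (χ' y : k)) h 2 (by
    rw [T.pf_two, T.pf_two, map_one, map_one])
  have ext : ∀ χ₁ χ₂ : Y →* kˣ, χ₁ g = χ₂ g → χ₁ = χ₂ := by
    intro χ₁ χ₂ hh
    ext y
    obtain ⟨n, rfl⟩ := Subgroup.mem_zpowers_iff.mp (hg y)
    rw [map_zpow, map_zpow, hh]
  by_cases hgg : g = g⁻¹
  · left
    apply ext
    rw [inv_sq hgg, inv_sq hgg]
  · have h2 := h1 (τ g)
    rw [T.pf_val _ hgg, T.pf_val _ hgg, map_inv, map_inv] at h2
    rcases unit_add_inv h2.symm with h3 | h3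
    · left; exact ext _ _ h3
    · right; exact ext _ _ h3

/-! ### the two families -/

theorem TrK (q : ℕ) [Fact q.Prime] : Tr (ZMod q) (MonoidHom.id (ZMod q)ˣ)
    (fun y : (ZMod q)ˣ => (y : ZMod q) + ((y⁻¹ : (ZMod q)ˣ) : ZMod q)) where
  inj := Function.injective_id
  tr := fun y => rfl

theorem TrT (q : ℕ) [Fact q.Prime] : Tr (GaloisField q 2) (T1 q).subtype
    (fun t : T1 q => Algebra.trace (ZMod q) (GaloisField q 2) ((t : (GaloisField q 2)ˣ) :
    GaloisField q 2)) where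
  inj := Subtype.val_injective
  tr := fun t => by
    rw [FiniteField.algebraMap_trace_eq_sum_pow, GaloisField.finrank q (by norm_num),
      Nat.card_zmod, Finset.sum_range_succ, Finset.sum_range_one, pow_zero, pow_one, pow_one]
    congr 1
    have h1 : (t : (GaloisField q 2)ˣ) ^ (q + 1) = 1 := t.2
    have h2 : (t : (GaloisField q 2)ˣ) ^ q = (t : (GaloisField q 2)ˣ)⁻¹ := by
      rw [pow_succ] at h1
      exact eq_inv_of_mul_eq_one_left h1
    rw [← Units.val_pow_eq_pow_val, h2]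
    rfl

theorem T1_fin (q : ℕ) [Fact q.Prime] : Finite (T1 q) := Subtype.finite

end

end FOUR

open FOUR

section
variable {q : ℕ} [Fact q.Prime] {k : Type u} [Field k] [CharP k 2] (ψ : AddChar (ZMod q) k)

theorem FOUR1 (hq : q % 4 = 3) (hψ : ψ.IsPrimitive) (l l' : (ZMod q)ˣ →* kˣ)
    (h : ∀ a, Kl ψ l a = Kl ψ l' a) : l' = l ∨ l' = l⁻¹ :=
  char_eq ψ hq hψ (TrK q) l l' h

theorem FOUR2 (hq : q % 4 = 3) (hψ : ψ.IsPrimitive) (θ θ' : T1 q →* kˣ)
    (h : ∀ a, Kt ψ θ a = Kt ψ θ' a) : θ' = θ ∨ θ' = θ⁻¹ := by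
  classical
  have := T1_fin q
  let _ := Fintype.ofFinite (T1 q)
  refine char_eq ψ hq hψ (TrT q) θ θ' fun a => ?_
  have h1 := h a
  unfold Kt at h1
  rw [finsum_eq_sum_of_fintype, finsum_eq_sum_of_fintype] at h1
  exact h1

theorem FOUR3 (hq : q % 4 = 3) (hψ : ψ.IsPrimitive) (θ : T1 q →* kˣ) (hθ : θ ≠ 1)
    (l : (ZMod q)ˣ →* kˣ) : ∃ a, Kt ψ θ a ≠ Kl ψ l a := by
  classical
  have := T1_fin q
  let _ := Fintype.ofFinite (T1 q)
  by_contra hcon
  push Not at hcon
  apply hθ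
  have h1 := pf_eq ψ hq hψ _ (fun t : T1 q => (θ t : k)) _ (fun y : (ZMod q)ˣ => (l y : k)) (by
    intro a
    have h2 := hcon a
    unfold Kt Kl at h2
    rw [finsum_eq_sum_of_fintype] at h2
    exact h2) 2 (by
    rw [(TrT q).pf_two, (TrK q).pf_two, map_one, map_one])
  ext t
  rw [MonoidHom.one_apply, Units.val_one]
  by_cases ht : t = t⁻¹
  · rw [inv_sq ht, Units.val_one]
  · have h2 := h1 (Algebra.trace (ZMod q) (GaloisField q 2) ((t : (GaloisField q 2)ˣ) :
      GaloisField q 2))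
    rw [(TrT q).pf_val (fun t : T1 q => (θ t : k)) ht] at h2
    rw [(TrK q).pf_none] at h2
    · have h3 : θ t ^ 2 = 1 := by
        apply Units.ext
        rw [Units.val_pow_eq_pow_val, Units.val_one]
        rw [map_inv, Units.val_inv_eq_inv_val] at h2
        have h4 := (θ t).ne_zero
        field_simp at h2
        have := CharTwo.two_eq_zero (R := k)
        linear_combination h2 - this
      rw [unit_sq h3, Units.val_one]
    · intro y hy
      have h3 := (TrT q).tr t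
      rw [← hy] at h3
      set Y : (GaloisField q 2)ˣ := Units.map (algebraMap (ZMod q) (GaloisField q 2)).toMonoidHom y
        with hY
      have h4 : (Y : GaloisField q 2) + ((Y⁻¹ : (GaloisField q 2)ˣ) : GaloisField q 2) =
          (((T1 q).subtype t : (GaloisField q 2)ˣ) : GaloisField q 2) +
          ((((T1 q).subtype t)⁻¹ : (GaloisField q 2)ˣ) : GaloisField q 2) := by
        rw [← h3, map_add, hY]
        rfl
      have h5 : Y ^ (q - 1) = 1 := by
        rw [hY, ← map_pow, ZMod.units_pow_card_sub_one_eq_one, map_one]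
      have h6 : ((T1 q).subtype t) ^ (q - 1) = 1 := by
        rcases unit_add_inv h4 with h | h
        · rw [← h, h5]
        · rw [← inv_inv ((T1 q).subtype t), ← h, inv_pow, h5, inv_one]
      have h7 : ((T1 q).subtype t) ^ (q + 1) = 1 := t.2
      have h8 : ((T1 q).subtype t) ^ 2 = 1 := by
        have hq1 : q + 1 = (q - 1) + 2 := by omega
        rw [hq1, pow_add, h6, one_mul] at h7
        exact h7
      apply ht
      have h9 : t ^ 2 = 1 := by
        apply Subtype.val_injective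
        exact h8
      rw [sq] at h9
      exact eq_inv_of_mul_eq_one_left h9

end

end CM
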